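import Pool.Agent.Lib_helper99.FGA.WantedE
import Pool.Agent.Lib_helper59.MFF.C3b
import Pool.Agent.Lib_helper59.MFF.C4c
import Pool.Agent.Lib_helper92.HCF.FIF
import Pool.Agent.Lib_helper92.HCF.FIB
import Pool.Agent.Lib_helper92.HCF.HBM
import Pool.Agent.Lib_helper92.HCF.DIA

/-! FGA, block A18aE -/

set_option autoImplicit false

namespace Pool.Agent.FGA

open Finset Pool.Agent.Var35 Pool.Agent.Var73 Pool.Agent.PV Pool.Agent.FGP
open scoped ArithmeticFunction ArithmeticFunction.Moebius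

lemma A18aE_term {X : ℝ} {Q R : ℕ} (χ : DirichletCharacter ℂ Q) :
    0 ≤ ‖MF.cc ⌊X⌋₊ χ‖ ^ 2 *
      ∑ d ∈ Q.divisors.filter (fun d => R < d ∧ χ.conductor ∣ d),
        (χ.conductor : ℝ) / Nat.totient d := by
  apply mul_nonneg (by positivity)
  apply Finset.sum_nonneg
  intro d _
  positivity

lemma A18aE_sur_nonneg (X : ℝ) (Q R : ℕ) (D : ℝ) : 0 ≤ MF.SUR X Q R D := by
  unfold MF.SUR
  apply mul_nonneg (by positivity)
  apply Finset.sum_nonneg
  intro χ _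
  split_ifs
  · exact A18aE_term χ
  · exact le_rfl

lemma A18aE_sur_mono (X : ℝ) (Q R : ℕ) {D D' : ℝ} (h : D ≤ D') :
    MF.SUR X Q R D ≤ MF.SUR X Q R D' := by
  unfold MF.SUR
  apply mul_le_mul_of_nonneg_left _ (by positivity)
  apply Finset.sum_le_sum
  intro χ _
  by_cases h1 : (χ.conductor : ℝ) ≤ D
  · rw [if_pos h1, if_pos (h1.trans h)]
  · rw [if_neg h1]
    split_ifs
    · exact A18aE_term χ
    · exact le_rfl

theorem A18aE_pr : A18aE := by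
  obtain ⟨Cs, hCs, hs⟩ := MF.surplus_pr
  obtain ⟨CA, hCA, hA⟩ := HC.partA 1 one_pos
  obtain ⟨X1, hd⟩ := HC.diag_pr 1 one_pos
  refine ⟨max (max (4 * CA) X1) (max 8 (32 + 20 * Cs)),
    lt_of_lt_of_le (by norm_num) ((le_max_left (8 : ℝ) _).trans (le_max_right _ _)),
    fun X Y hCX hsq hCY => ?_⟩
  have hXA' : 4 * CA ≤ X := le_trans (le_trans (le_max_left _ _) (le_max_left _ _)) hCX
  have hXA : CA ≤ X := by linarith
  have hX1 : X1 ≤ X := le_trans (le_trans (le_max_right _ _) (le_max_left _ _)) hCX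
  have hX8 : 8 ≤ X := le_trans (le_trans (le_max_left _ _) (le_max_right _ _)) hCX
  have hCs' : 32 + 20 * Cs ≤ max (max (4 * CA) X1) (max 8 (32 + 20 * Cs)) :=
    le_trans (le_max_right _ _) (le_max_right _ _)
  have hYn : (0 : ℝ) ≤ Y := Nat.cast_nonneg _
  have hCAY : 4 * CA * Y ≤ X := le_trans (mul_le_mul_of_nonneg_right
    (le_trans (le_max_left _ _) (le_max_left _ _)) hYn) hCY
  have h8Y : 8 * (Y : ℝ) ≤ X := le_trans (mul_le_mul_of_nonneg_right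
    (le_trans (le_max_left _ _) (le_max_right _ _)) hYn) hCY
  have hX0 : 0 < X := by linarith
  have hX3 : 3 ≤ X := by linarith
  set L := Real.log X with hLd
  have hL1 : 1 ≤ L := by
    rw [hLd, Real.le_log_iff_exp_le hX0]
    linarith [Real.exp_one_lt_d9]
  have hL0 : 0 < L := by linarith
  have hLp : ∀ k : ℕ, 1 ≤ L ^ k := fun k => one_le_pow₀ hL1
  have hs1 : 1 ≤ Real.sqrt X := by
    rw [Real.one_le_sqrt]
    linarith
  have hY12 : L ^ 12 ≤ Y := by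
    calc L ^ 12 = 1 * L ^ 12 := by ring
      _ ≤ Real.sqrt X * L ^ 12 := by gcongr
      _ ≤ Y := hsq
  have hY0 : (0 : ℝ) < Y := lt_of_lt_of_le (by positivity) hY12
  have hY1 : 1 ≤ Y := by exact_mod_cast hY0
  have hY2 : X * L ^ 24 ≤ (Y : ℝ) ^ 2 := by
    calc X * L ^ 24 = (Real.sqrt X * L ^ 12) ^ 2 := by
          rw [mul_pow, Real.sq_sqrt hX0.le]
          ring
      _ ≤ (Y : ℝ) ^ 2 := by gcongr
  have hYX : (Y : ℝ) ≤ X := by linarith
  have hXY : 0 < X * Y := by positivity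
  set R := ⌊X / (4 * Y) * L ^ 8⌋₊ with hRd
  have ht1 : 2 ≤ X / (4 * Y) * L ^ 8 := by
    have h1 : 2 ≤ X / (4 * Y) := by
      rw [le_div_iff₀ (by positivity)]
      linarith
    calc (2 : ℝ) = 2 * 1 := by ring
      _ ≤ X / (4 * Y) * L ^ 8 := by
        apply mul_le_mul h1 (hLp 8) (by norm_num) (by positivity)
  have hR1 : (R : ℝ) ≤ X / (4 * Y) * L ^ 8 := Nat.floor_le (by positivity)
  have hR2 : X / (4 * Y) * L ^ 8 / 2 ≤ R := by
    have := Nat.lt_floor_add_one (X / (4 * Y) * L ^ 8)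
    rw [← hRd] at this
    linarith
  have hR : 1 ≤ R := by
    have h1 : (1 : ℝ) ≤ R := by linarith
    exact_mod_cast h1
  have hR0 : (0 : ℝ) < R := by exact_mod_cast hR
  -- the diagonal
  have hA2 : HC.A2 HC.Lam ⌊X⌋₊ ≤ X * L := by
    have := hd X hX1
    linarith
  have hA20 : 0 ≤ HC.A2 HC.Lam ⌊X⌋₊ := Finset.sum_nonneg fun _ _ => sq_nonneg _
  -- part A
  have hc4 : ((4 * Y : ℕ) : ℝ) = 4 * Y := by push_cast; ring
  have hHH := hA X (4 * Y) hXA (by rw [hc4]; linarith) (by rw [hc4]; linarith)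
  have hHH2 : ∑ Q ∈ Icc 1 (4 * Y), (X * Real.log Q - X * HC.CQ Q) ≤ 4 * (X * Y * L) := by
    calc ∑ Q ∈ Icc 1 (4 * Y), (X * Real.log Q - X * HC.CQ Q) ≤ ∑ Q ∈ Icc 1 (4 * Y), X * L := by
          apply Finset.sum_le_sum
          intro Q hQ
          rw [mem_Icc] at hQ
          have h1 : 0 ≤ X * HC.CQ Q := mul_nonneg hX0.le (HC.FIF_cq Q)
          have h2 : Real.log Q ≤ L := by
            rw [hLd]
            apply Real.log_le_log
            · exact_mod_cast hQ.1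
            · have h3 : (Q : ℝ) ≤ ((4 * Y : ℕ) : ℝ) := by exact_mod_cast hQ.2
              rw [hc4] at h3
              linarith
          have h3 : X * Real.log Q ≤ X * L := by gcongr
          linarith
      _ = 4 * (X * Y * L) := by
          rw [Finset.sum_const, Nat.card_Icc, nsmul_eq_mul, Nat.add_sub_cancel, hc4]
          ring
  set HS := ∑ Q ∈ Icc 1 (4 * Y), HC.HH X Q (X / Q * L ^ 8) with hHS
  have hHS1 : HS ≤ 8 * (X * Y * L) := by
    rw [hc4] at hHH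
    have h1 : X * Y ≤ X * Y * L := le_mul_of_one_le_right hXY.le hL1
    linarith
  -- the surplus
  have hD1 : (R : ℝ) ≤ X / Y * L ^ 8 := by
    refine hR1.trans ?_
    gcongr
    linarith
  have hD2 : X / Y * L ^ 8 ≤ X := by
    calc X / Y * L ^ 8 ≤ X / Y * Y := by
          gcongr
          refine le_trans ?_ hY12
          exact pow_le_pow_right₀ hL1 (by norm_num)
      _ = X := by field_simp
  have hD3 : X / Y * L ^ 8 ≤ Y / L ^ 16 := by
    rw [div_mul_eq_mul_div, div_le_div_iff₀ hY0 (by positivity)]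
    calc X * L ^ 8 * L ^ 16 = X * L ^ 24 := by ring
      _ ≤ (Y : ℝ) ^ 2 := hY2
      _ = Y * Y := by ring
  have hD4 : X / R ≤ 8 * Y / L ^ 8 := by
    rw [div_le_div_iff₀ hR0 (by positivity)]
    have h1 : X * L ^ 8 ≤ R * (8 * Y) := by
      have h2 : X / (4 * Y) * L ^ 8 / 2 = (X * L ^ 8) / (8 * Y) := by
        field_simp
        ring
      rw [h2, div_le_iff₀ (by positivity)] at hR2
      exact hR2
    linarith
  have hS := hs X (4 * Y) R (X / Y * L ^ 8) hX3 hR (by omega) (by rw [hc4]; linarith) hD1 hD2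
  set SS := ∑ Q ∈ Icc 1 (4 * Y), MF.SUR X Q R (X / Y * L ^ 8) with hSS
  have hSS0 : 0 ≤ SS := Finset.sum_nonneg fun Q _ => A18aE_sur_nonneg X Q R _
  have hS1 : SS ≤ 10 * Cs * (X * Y) / L := by
    have s1 : L ^ 3 * ((X / R + X / Y * L ^ 8) * HC.A2 HC.Lam ⌊X⌋₊) ≤ 9 * (X * Y) / L := by
      calc L ^ 3 * ((X / R + X / Y * L ^ 8) * HC.A2 HC.Lam ⌊X⌋₊)
          ≤ L ^ 3 * ((8 * Y / L ^ 8 + Y / L ^ 16) * (X * L)) := by
            gcongr
        _ ≤ L ^ 3 * ((8 * Y / L ^ 8 + Y / L ^ 8) * (X * L)) := by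
            have : (Y : ℝ) / L ^ 16 ≤ Y / L ^ 8 := by
              apply div_le_div_of_nonneg_left (by positivity) (by positivity)
              exact pow_le_pow_right₀ hL1 (by norm_num)
            gcongr
        _ = 9 * (X * Y) / L ^ 4 := by field_simp; ring
        _ ≤ 9 * (X * Y) / L := by
            apply div_le_div_of_nonneg_left (by positivity) hL0
            exact le_self_pow₀ hL1 (by norm_num)
    have s2 : L ^ 8 * (X / Y * L ^ 8) ≤ 1 * (X * Y) / L := by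
      calc L ^ 8 * (X / Y * L ^ 8) ≤ L ^ 8 * (Y / L ^ 16) := by gcongr
        _ = 1 * (1 * Y) / L ^ 8 := by field_simp
        _ ≤ 1 * (X * Y) / L ^ 8 := by
            have : (1 : ℝ) ≤ X := by linarith
            gcongr
        _ ≤ 1 * (X * Y) / L := by
            apply div_le_div_of_nonneg_left (by positivity) hL0
            exact le_self_pow₀ hL1 (by norm_num)
    calc SS ≤ Cs * L ^ 3 * ((X / R + X / Y * L ^ 8) * HC.A2 HC.Lam ⌊X⌋₊)
          + Cs * L ^ 8 * (X / Y * L ^ 8) := hS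
      _ = Cs * (L ^ 3 * ((X / R + X / Y * L ^ 8) * HC.A2 HC.Lam ⌊X⌋₊))
          + Cs * (L ^ 8 * (X / Y * L ^ 8)) := by ring
      _ ≤ Cs * (9 * (X * Y) / L) + Cs * (1 * (X * Y) / L) := by gcongr
      _ = 10 * Cs * (X * Y) / L := by ring
  -- one modulus
  have hsub : MQ Y ⊆ Icc 1 (4 * Y) := by
    intro Q hQ
    rw [MQ, mem_Ioc] at hQ
    rw [mem_Icc]
    omega
  have hK : (1 : ℝ) ≤ L ^ 2 := hLp 2
  have hone : ∀ Q ∈ MQ Y, |HC.HH X Q (X / Q * L ^ 8) -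
      (1 / (Q : ℝ)) * ∑ l ∈ (range Q).filter (fun l : ℕ => R < HC.den l Q),
        HC.Sq HC.Lam ⌊X⌋₊ (l / Q)| ≤
      1 / L ^ 2 * HC.HH X Q (X / Q * L ^ 8) + (1 + 1 / L ^ 2) * MF.SUR X Q R (X / Y * L ^ 8) +
        (1 + L ^ 2) * (4 * L ^ 4) := by
    intro Q hQ
    rw [MQ, mem_Ioc] at hQ
    have hQ1 : 1 ≤ Q := by omega
    have hQY : (Q : ℝ) ≤ 4 * Y := by exact_mod_cast hQ.2
    have hYQ : (Y : ℝ) ≤ Q := by exact_mod_cast hQ.1.le
    have hQ0 : (0 : ℝ) < Q := by exact_mod_cast hQ1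
    have h1 := MF.per_q_pr X hX3 Q R hQ1 (by linarith) (X / Q * L ^ 8) (L ^ 2) hK
    have h2 : MF.SUR X Q R (X / Q * L ^ 8) ≤ MF.SUR X Q R (X / Y * L ^ 8) := by
      apply A18aE_sur_mono
      gcongr
    have h3 : (1 + 1 / L ^ 2) * (HC.HH X Q (X / Q * L ^ 8) + MF.SUR X Q R (X / Q * L ^ 8)) ≤
        (1 + 1 / L ^ 2) * (HC.HH X Q (X / Q * L ^ 8) + MF.SUR X Q R (X / Y * L ^ 8)) := by
      gcongr
    have h4 := HC.FIB_hh_le X Q R hQ1 (X / Q * L ^ 8) (hR1.trans (by gcongr))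
    rw [abs_sub_comm, abs_of_nonneg (by linarith)]
    linarith
  -- the sum over the moduli
  have hcard : ((MQ Y).card : ℝ) ≤ 3 * Y := by
    rw [MQ, Nat.card_Ioc]
    have : 4 * Y - Y = 3 * Y := by omega
    rw [this]
    push_cast
    exact le_rfl
  have e2 : ∑ Q ∈ MQ Y, HC.HH X Q (X / Q * L ^ 8) ≤ HS :=
    Finset.sum_le_sum_of_subset_of_nonneg hsub fun Q _ _ => HC.HBM_hh_nonneg X Q _
  have e3 : ∑ Q ∈ MQ Y, MF.SUR X Q R (X / Y * L ^ 8) ≤ SS :=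
    Finset.sum_le_sum_of_subset_of_nonneg hsub fun Q _ _ => A18aE_sur_nonneg X Q R _
  have f1 : 1 / L ^ 2 * HS ≤ 8 * (X * Y) / L := by
    calc 1 / L ^ 2 * HS ≤ 1 / L ^ 2 * (8 * (X * Y * L)) := by gcongr
      _ = 8 * (X * Y) / L := by field_simp
  have f2 : (1 + 1 / L ^ 2) * SS ≤ 20 * Cs * (X * Y) / L := by
    have h1 : 1 / L ^ 2 ≤ 1 := by
      rw [div_le_one (by positivity)]
      exact hK
    calc (1 + 1 / L ^ 2) * SS ≤ (1 + 1) * (10 * Cs * (X * Y) / L) := by gcongr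
      _ = 20 * Cs * (X * Y) / L := by ring
  have f3 : 3 * Y * ((1 + L ^ 2) * (4 * L ^ 4)) ≤ 24 * (X * Y) / L := by
    rw [le_div_iff₀ hL0]
    calc 3 * Y * ((1 + L ^ 2) * (4 * L ^ 4)) * L ≤ 3 * Y * ((L ^ 2 + L ^ 2) * (4 * L ^ 4)) * L := by
          gcongr
      _ = 24 * (L ^ 7 * Y) := by ring
      _ ≤ 24 * (L ^ 12 * Y) := by
          gcongr
          · norm_num
      _ ≤ 24 * (Y * Y) := by gcongr
      _ ≤ 24 * (X * Y) := by gcongr
  have f4 : (32 + 20 * Cs) * (X * Y) / L ≤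
      max (max (4 * CA) X1) (max 8 (32 + 20 * Cs)) * X * Y / L := by
    rw [mul_assoc (max (max (4 * CA) X1) (max 8 (32 + 20 * Cs)))]
    gcongr
  have f6 : 8 * (X * Y) / L + 20 * Cs * (X * Y) / L + 24 * (X * Y) / L =
      (32 + 20 * Cs) * (X * Y) / L := by ring
  calc ∑ Q ∈ MQ Y, |HC.HH X Q (X / Q * L ^ 8) -
      (1 / (Q : ℝ)) * ∑ l ∈ (range Q).filter (fun l : ℕ => R < HC.den l Q),
        HC.Sq HC.Lam ⌊X⌋₊ (l / Q)|
      ≤ ∑ Q ∈ MQ Y, (1 / L ^ 2 * HC.HH X Q (X / Q * L ^ 8) +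
        (1 + 1 / L ^ 2) * MF.SUR X Q R (X / Y * L ^ 8) + (1 + L ^ 2) * (4 * L ^ 4)) :=
        Finset.sum_le_sum hone
    _ = 1 / L ^ 2 * ∑ Q ∈ MQ Y, HC.HH X Q (X / Q * L ^ 8) +
        (1 + 1 / L ^ 2) * ∑ Q ∈ MQ Y, MF.SUR X Q R (X / Y * L ^ 8) +
        (MQ Y).card * ((1 + L ^ 2) * (4 * L ^ 4)) := by
        rw [Finset.sum_add_distrib, Finset.sum_add_distrib, ← Finset.mul_sum, ← Finset.mul_sum,
          Finset.sum_const, nsmul_eq_mul]
    _ ≤ 1 / L ^ 2 * HS + (1 + 1 / L ^ 2) * SS + 3 * Y * ((1 + L ^ 2) * (4 * L ^ 4)) := by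
        gcongr
    _ ≤ max (max (4 * CA) X1) (max 8 (32 + 20 * Cs)) * X * Y / L := by linarith

end Pool.Agent.FGA
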